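import Pool.Agent.R484.NCb

/-!
# Morphisms through two classes of objects: definitions
-/

set_option autoImplicit false

open CategoryTheory Limits MonoidalCategory

namespace Run7.h43.NC

open Pool.Agent.Y112.SR Pool.Agent.Y112.KD Pool.Agent.R484.NC

universe v u w

variable {C : Type u} [Category.{v} C] [Preadditive C] [Linear ℚ C] [MonoidalCategory C]
  [MonoidalPreadditive C] [MonoidalLinear ℚ C] [SymmetricCategory C] [RightRigidCategory C]
  {K : Type w} [Field K]

/-- The even part (`ε = 1`) or the odd part (`ε = -1`) of the realisation of `M`. -/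
noncomputable def signPart (R : SuperRealisation C K) (ε : K) (M : C) :
    Submodule K (R.H.obj M) :=
  LinearMap.ker ((R.par M).hom - ε • LinearMap.id)

/-- The operator from the realisation of `M` to that of `N` given by a morphism. -/
noncomputable def opm (R : SuperRealisation C K) {M N : C} (f : M ⟶ N) :
    R.H.obj M →ₗ[K] R.H.obj N := (R.H.map f).hom

/-- Numerically trivial morphisms: the trace of `g ∘ f` is zero for all morphisms `g` in the other
direction. -/
def NumTriv (hU : UnitQ C) {M N : C} (f : M ⟶ N) : Prop := ∀ g : N ⟶ M, ctr hU (f ≫ g) = 0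

/-- The realisations of the numerically trivial morphisms from `M` to `N` are zero on the part of
sign `ε`. -/
def HomNum (hU : UnitQ C) (R : SuperRealisation C K) (ε : K) (M N : C) : Prop :=
  ∀ f : M ⟶ N, NumTriv hU f → ∀ x ∈ signPart R ε M, opm R f x = 0

/-- The part of sign `ε` of the realisation of `M` is generated by `𝒮`: it is contained in the span
of the images of the realisations of all morphisms from objects in `𝒮` to `M`. -/
def Generated (R : SuperRealisation C K) (𝒮 : Set C) (ε : K) (M : C) : Prop :=
  signPart R ε M ≤ Submodule.span K {y | ∃ X ∈ 𝒮, ∃ (α : X ⟶ M) (x : R.H.obj X), y = opm R α x}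

/-- The part of sign `ε` of the realisation of `M` is detected by `𝒮'`: its elements which are
killed by all morphisms from `M` to objects in `𝒮'` are zero. -/
def Detected (R : SuperRealisation C K) (𝒮' : Set C) (ε : K) (M : C) : Prop :=
  ∀ y ∈ signPart R ε M, (∀ X' ∈ 𝒮', ∀ β : M ⟶ X', opm R β y = 0) → y = 0

/-- The combinations, with rational coefficients, of compositions `M → X' → X → M` with `X'` in
`𝒮'` and `X` in `𝒮`. -/
def through (𝒮' 𝒮 : Set C) (M : C) : Submodule ℚ (M ⟶ M) :=
  Submodule.span ℚ {f | ∃ X' ∈ 𝒮', ∃ X ∈ 𝒮, ∃ (β : M ⟶ X') (δ : X' ⟶ X) (α : X ⟶ M),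
    f = β ≫ δ ≫ α}

/-- The endomorphism `e` of `M` realises the projector to the part of sign `ε`. -/
def Projects (R : SuperRealisation C K) (ε : K) {M : C} (e : M ⟶ M) : Prop :=
  (2 : K) • R.H.map e = 𝟙 _ + ε • R.par M

end Run7.h43.NC
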