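import Pool.Agent.Run7.h43.NC.Defs
import Pool.Agent.Run7.h43.SD.Rel

/-!
# Projectors through two classes of objects
-/

set_option autoImplicit false

open CategoryTheory Limits MonoidalCategory

namespace Run7.h43.NC

open Pool.Agent.Y112.SR Pool.Agent.Y112.KD Pool.Agent.R484.NC Pool.Agent.Y112.SC
open Run7.h43.SD (exists_repr)

universe v u w

variable {C : Type u} [Category.{v} C] [Preadditive C] [Linear ℚ C] [MonoidalCategory C]
  [MonoidalPreadditive C] [MonoidalLinear ℚ C] [SymmetricCategory C] [RightRigidCategory C]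
  {K : Type w} [Field K] (R : SuperRealisation C K)

section Lin

variable {M N P : C}

lemma opm_comp (f : M ⟶ N) (g : N ⟶ P) (x : R.H.obj M) :
    opm R (f ≫ g) x = opm R g (opm R f x) := by
  rw [opm, Functor.map_comp, ModuleCat.hom_comp]; rfl

lemma opm_id (x : R.H.obj M) : opm R (𝟙 M) x = x := by
  rw [opm, CategoryTheory.Functor.map_id, ModuleCat.hom_id]; rfl

lemma opm_add (f g : M ⟶ N) (x : R.H.obj M) : opm R (f + g) x = opm R f x + opm R g x := by
  rw [opm, Functor.map_add, ModuleCat.hom_add]; rfl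

lemma opm_sub (f g : M ⟶ N) (x : R.H.obj M) : opm R (f - g) x = opm R f x - opm R g x := by
  rw [opm, Functor.map_sub, ModuleCat.hom_sub]; rfl

lemma opm_zero (x : R.H.obj M) : opm R (0 : M ⟶ N) x = 0 := by
  have h : R.H.map (0 : M ⟶ N) = 0 := R.H.map_zero M N
  rw [opm, h]; rfl

lemma opm_smul [CharZero K] (q : ℚ) (f : M ⟶ N) (x : R.H.obj M) :
    opm R (q • f) x = (q : K) • opm R f x := by
  rw [opm, R_smul, ModuleCat.hom_smul]; rfl

/-- the parity operator -/
noncomputable def pr (M : C) : R.H.obj M →ₗ[K] R.H.obj M := (R.par M).hom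

lemma pr_pr (x : R.H.obj M) : pr R M (pr R M x) = x := by
  have h := congrArg ModuleCat.Hom.hom (R.par_sq M)
  rw [ModuleCat.hom_comp, ModuleCat.hom_id] at h
  exact LinearMap.congr_fun h x

lemma opm_pr (f : M ⟶ N) (x : R.H.obj M) : opm R f (pr R M x) = pr R N (opm R f x) := by
  have h := congrArg ModuleCat.Hom.hom (R.par_natural f)
  rw [ModuleCat.hom_comp, ModuleCat.hom_comp] at h
  exact (LinearMap.congr_fun h x).symm

lemma mem_signPart {ε : K} {x : R.H.obj M} : x ∈ signPart R ε M ↔ pr R M x = ε • x := by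
  rw [signPart, LinearMap.mem_ker, LinearMap.sub_apply, sub_eq_zero]
  rfl

/-- the projector -/
noncomputable def prj (ε : K) (M : C) : R.H.obj M →ₗ[K] R.H.obj M :=
  (2 : K)⁻¹ • (LinearMap.id + ε • pr R M)

lemma prj_apply (ε : K) (x : R.H.obj M) : prj R ε M x = (2 : K)⁻¹ • (x + ε • pr R M x) := rfl

lemma opm_prj (ε : K) (f : M ⟶ N) (x : R.H.obj M) :
    opm R f (prj R ε M x) = prj R ε N (opm R f x) := by
  rw [prj_apply, prj_apply, map_smul, map_add, map_smul, opm_pr]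

variable {ε : K}

lemma prj_mem (hε : ε * ε = 1) (x : R.H.obj M) : prj R ε M x ∈ signPart R ε M := by
  rw [mem_signPart, prj_apply, map_smul, map_add, map_smul, pr_pr, smul_comm ε, smul_add ε,
    smul_smul ε ε, hε, one_smul, add_comm]

variable {R}

lemma prj_of_mem [CharZero K] (hε : ε * ε = 1) {x : R.H.obj M} (hx : x ∈ signPart R ε M) :
    prj R ε M x = x := by
  rw [mem_signPart] at hx
  rw [prj_apply, hx, smul_smul, hε, one_smul, ← two_smul K x, smul_smul,
    inv_mul_cancel₀ (two_ne_zero), one_smul]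

lemma projects_iff [CharZero K] {e : M ⟶ M} :
    Projects R ε e ↔ ∀ x, opm R e x = prj R ε M x := by
  have h2 : (2 : K) ≠ 0 := two_ne_zero
  constructor
  · intro h x
    have h1 := LinearMap.congr_fun (congrArg ModuleCat.Hom.hom h) x
    have h3 : (2 : K) • opm R e x = x + ε • pr R M x := h1
    rw [prj_apply, ← h3, smul_smul, inv_mul_cancel₀ h2, one_smul]
  · intro h
    apply ModuleCat.hom_ext
    ext x
    have h3 := h x
    have h4 : (2 : K) • opm R e x = x + ε • pr R M x := by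
      rw [h3, prj_apply, smul_smul, mul_inv_cancel₀ h2, one_smul]
    exact h4

lemma exists_projects (hε : ε = 1 ∨ ε = -1) (h : R.CPlus M) : ∃ P : M ⟶ M, Projects R ε P := by
  have hc := R_charZero R
  obtain ⟨g, hg⟩ := (cplus_iff R M).1 h
  have hg' : ∀ x, opm R g x = pr R M x := fun x => by rw [opm, hg]; rfl
  rcases hε with rfl | rfl
  · refine ⟨(2⁻¹ : ℚ) • (𝟙 M + g), projects_iff.2 fun x => ?_⟩
    rw [opm_smul, opm_add, opm_id, hg', prj_apply, one_smul]
    push_cast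
    rfl
  · refine ⟨(2⁻¹ : ℚ) • (𝟙 M - g), projects_iff.2 fun x => ?_⟩
    rw [opm_smul, opm_sub, opm_id, hg', prj_apply, neg_smul, one_smul, ← sub_eq_add_neg]
    push_cast
    rfl

lemma cplus_of_projects (hε : ε = 1 ∨ ε = -1) {e : M ⟶ M} (h : Projects R ε e) : R.CPlus M := by
  have hc := R_charZero R
  rw [projects_iff] at h
  rcases hε with rfl | rfl
  · exact ⟨e, projects_iff.2 h |>.trans (by rw [one_smul])⟩
  · refine ⟨𝟙 M - e, ?_⟩
    have h1 : Projects R (1 : K) (𝟙 M - e) := by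
      rw [projects_iff]
      intro x
      rw [opm_sub, opm_id, h, prj_apply, prj_apply, neg_smul, one_smul]
      have h2 : (2 : K) ≠ 0 := two_ne_zero
      have h3 : (2 : K)⁻¹ • x + (2 : K)⁻¹ • x = x := by
        rw [← two_smul K ((2 : K)⁻¹ • x), smul_smul, mul_inv_cancel₀ h2, one_smul]
      calc x - (2 : K)⁻¹ • (x + -pr R M x)
          = ((2 : K)⁻¹ • x + (2 : K)⁻¹ • x) - (2 : K)⁻¹ • (x + -pr R M x) := by rw [h3]
        _ = (2 : K)⁻¹ • (x + pr R M x) := by rw [smul_add, smul_add, smul_neg]; abel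
    exact h1.trans (by rw [one_smul])

end Lin

section Num

variable (hU : UnitQ C) {M N : C}

include R in
/-- the endomorphisms modulo numerical equivalence are finite-dimensional -/
lemma exists_coord' (M : C) : ∃ (m : ℕ) (f : (M ⟶ M) →ₗ[ℚ] (Fin m → ℚ)),
    ∀ a, f a = 0 → NumTriv hU a := by
  have hc := R_charZero R
  have hfin := R.finite M
  set S : Set (Module.End K (R.H.obj M)) := Set.range (fun g : M ⟶ M => op R g) with hS
  obtain ⟨s, hs, hspan⟩ := (Submodule.fg_span_iff_fg_span_finset_subset S).1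
    (IsNoetherian.noetherian (Submodule.span K S))
  have hs' : ∀ x : s, ∃ g : M ⟶ M, op R g = x := fun x => by
    have := hs x.2
    rwa [hS] at this
  choose g hg using hs'
  let e := s.equivFin
  refine ⟨s.card, LinearMap.pi fun i =>
    { toFun := fun a => ctr hU (a ≫ g (e.symm i))
      map_add' := fun a b => by rw [Preadditive.add_comp, ctr_add]
      map_smul' := fun q a => by
        rw [Linear.smul_comp, ctr_smul, RingHom.id_apply, smul_eq_mul] }, fun a ha => ?_⟩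
  intro h
  have h1 : ∀ x : s, LinearMap.trace K (R.H.obj M) ((evp R M - (1 - evp R M)) * (x * op R a)) = 0 := by
    intro x
    have h2 : ctr hU (a ≫ g x) = 0 := by
      have h3 := congrFun ha (e x)
      simpa using h3
    rw [← hg x, ← Pool.Agent.R484.NC.op_comp, ← str_eq, ← ctr_eq R hU, h2, Rat.cast_zero]
  have h2 : ∀ y ∈ Submodule.span K (s : Set (Module.End K (R.H.obj M))),
      LinearMap.trace K (R.H.obj M) ((evp R M - (1 - evp R M)) * (y * op R a)) = 0 := by
    intro y hy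
    refine Submodule.span_induction (p := fun y _ =>
      LinearMap.trace K (R.H.obj M) ((evp R M - (1 - evp R M)) * (y * op R a)) = 0) ?_ ?_ ?_ ?_ hy
    · intro x hx; exact h1 ⟨x, hx⟩
    · rw [zero_mul, mul_zero, map_zero]
    · intro x y _ _ hx hy; rw [add_mul, mul_add, map_add, hx, hy, add_zero]
    · intro c x _ hx; rw [smul_mul_assoc, mul_smul_comm, map_smul, hx, smul_zero]
  have h3 := h2 (op R h) (by
    rw [← hspan]
    exact Submodule.subset_span ⟨h, rfl⟩)
  rw [← Pool.Agent.R484.NC.op_comp, ← str_eq, ← ctr_eq R hU] at h3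
  exact_mod_cast h3

/-- endomorphisms of square zero in the realisation have trace zero -/
lemma ctr_eq_zero {t : M ⟶ M} (h : ∀ x, opm R t (opm R t x) = 0) : ctr hU t = 0 := by
  have hc := R_charZero R
  have hfin := R.finite M
  have h1 : op R t * op R t = 0 := by
    ext x
    exact h x
  have hcomm := op_comm R t
  have hcomm' : Commute (op R t) (evp R M - (1 - evp R M)) :=
    hcomm.sub_right ((Commute.one_right _).sub_right hcomm)
  have h2 : IsNilpotent ((evp R M - (1 - evp R M)) * op R t) := by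
    refine ⟨2, ?_⟩
    rw [hcomm'.symm.mul_pow, pow_two (op R t), h1, mul_zero]
  have h3 := (LinearMap.isNilpotent_trace_of_isNilpotent h2).eq_zero
  rw [← str_eq, ← ctr_eq R hU] at h3
  exact_mod_cast h3

end Num

section Main

variable (hU : UnitQ C) {𝒮' 𝒮 : Set C} {ε : K} {M : C}

/-- the compositions `M → X' → (X, sign part) → M` -/
def tj (𝒮' 𝒮 : Set C) (ε : K) (M : C) : Submodule ℚ (M ⟶ M) :=
  Submodule.span ℚ {f | ∃ X' ∈ 𝒮', ∃ X ∈ 𝒮, ∃ (β : M ⟶ X') (δ : X' ⟶ X) (P : X ⟶ X) (α : X ⟶ M),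
    Projects R ε P ∧ f = β ≫ δ ≫ P ≫ α}

/-- the generated part -/
noncomputable def gp (𝒮 : Set C) (ε : K) (M : C) : Submodule K (R.H.obj M) :=
  Submodule.span K {y | ∃ X ∈ 𝒮, ∃ (α : X ⟶ M) (x : R.H.obj X), x ∈ signPart R ε X ∧
    y = opm R α x}

variable {R}

lemma tj_le : tj R 𝒮' 𝒮 ε M ≤ through 𝒮' 𝒮 M := by
  refine Submodule.span_mono ?_
  rintro _ ⟨X', hX', X, hX, β, δ, P, α, hP, rfl⟩
  exact ⟨X', hX', X, hX, β, δ, P ≫ α, rfl⟩

lemma gp_le : gp R 𝒮 ε M ≤ signPart R ε M := by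
  refine Submodule.span_le.2 ?_
  rintro _ ⟨X, hX, α, x, hx, rfl⟩
  rw [mem_signPart] at hx
  change _ ∈ signPart R ε M
  rw [mem_signPart, ← opm_pr, hx, map_smul]

lemma generated_le [CharZero K] (hε : ε * ε = 1) (h : Generated R 𝒮 ε M) :
    signPart R ε M ≤ gp R 𝒮 ε M := by
  intro y hy
  have h1 : ∀ z ∈ Submodule.span K {y | ∃ X ∈ 𝒮, ∃ (α : X ⟶ M) (x : R.H.obj X), y = opm R α x},
      prj R ε M z ∈ gp R 𝒮 ε M := by
    intro z hz
    refine Submodule.span_induction (p := fun z _ => prj R ε M z ∈ gp R 𝒮 ε M) ?_ ?_ ?_ ?_ hz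
    · rintro _ ⟨X, hX, α, x, rfl⟩
      rw [← opm_prj]
      exact Submodule.subset_span ⟨X, hX, α, _, prj_mem R hε x, rfl⟩
    · rw [map_zero]; exact Submodule.zero_mem _
    · intro a b _ _ ha hb; rw [map_add]; exact Submodule.add_mem _ ha hb
    · intro c a _ ha; rw [map_smul]; exact Submodule.smul_mem _ _ ha
  have h2 := h1 y (h hy)
  rwa [prj_of_mem hε hy] at h2

lemma tj_map [CharZero K] (hε : ε * ε = 1) {t : M ⟶ M} (ht : t ∈ tj R 𝒮' 𝒮 ε M)
    (w : R.H.obj M) : opm R t w ∈ gp R 𝒮 ε M := by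
  refine Submodule.span_induction (p := fun t _ => opm R t w ∈ gp R 𝒮 ε M) ?_ ?_ ?_ ?_ ht
  · rintro _ ⟨X', hX', X, hX, β, δ, P, α, hP, rfl⟩
    rw [opm_comp, opm_comp, opm_comp, projects_iff.1 hP]
    exact Submodule.subset_span ⟨X, hX, α, _, prj_mem R hε _, rfl⟩
  · rw [opm_zero]; exact Submodule.zero_mem _
  · intro a b _ _ ha hb; rw [opm_add]; exact Submodule.add_mem _ ha hb
  · intro c a _ ha; rw [opm_smul]; exact Submodule.smul_mem _ _ ha

lemma tj_prj [CharZero K] (hε : ε * ε = 1) {t : M ⟶ M} (ht : t ∈ tj R 𝒮' 𝒮 ε M)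
    (w : R.H.obj M) : opm R t (prj R ε M w) = opm R t w := by
  refine Submodule.span_induction (p := fun t _ => opm R t (prj R ε M w) = opm R t w)
    ?_ ?_ ?_ ?_ ht
  · rintro _ ⟨X', hX', X, hX, β, δ, P, α, hP, rfl⟩
    rw [opm_comp, opm_comp, opm_comp, opm_comp, opm_comp, opm_comp, projects_iff.1 hP,
      projects_iff.1 hP, opm_prj R ε β, opm_prj R ε δ, prj_of_mem hε (prj_mem R hε _)]
  · rw [opm_zero, opm_zero]
  · intro a b _ _ ha hb; rw [opm_add, opm_add, ha, hb]
  · intro c a _ ha; rw [opm_smul, opm_smul, ha]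

/-- The main lemma. -/
lemma orth (hε : ε = 1 ∨ ε = -1) (hC : ∀ X ∈ 𝒮, R.CPlus X)
    (hD : ∀ X ∈ 𝒮, ∀ X' ∈ 𝒮', HomNum hU R ε X X') {x : M ⟶ M}
    (hx : ∀ t ∈ tj R 𝒮' 𝒮 ε M, ctr hU (x ≫ t) = 0) {y : R.H.obj M} (hy : y ∈ gp R 𝒮 ε M)
    {X' : C} (hX' : X' ∈ 𝒮') (β : M ⟶ X') : opm R β (opm R x y) = 0 := by
  have hc := R_charZero R
  have hε' : ε * ε = 1 := by rcases hε with rfl | rfl <;> norm_num
  refine Submodule.span_induction (p := fun y _ => opm R β (opm R x y) = 0) ?_ ?_ ?_ ?_ hy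
  · rintro _ ⟨X, hX, α, a, ha, rfl⟩
    obtain ⟨P, hP⟩ := exists_projects (M := X) hε (hC X hX)
    have h1 : NumTriv hU (P ≫ α ≫ x ≫ β) := by
      intro δ
      have h2 : (P ≫ α ≫ x ≫ β) ≫ δ = (P ≫ α) ≫ (x ≫ β ≫ δ) := by
        simp only [Category.assoc]
      rw [h2, ctr_comm R hU]
      have h3 : (x ≫ β ≫ δ) ≫ (P ≫ α) = x ≫ (β ≫ δ ≫ P ≫ α) := by
        simp only [Category.assoc]
      rw [h3]
      exact hx _ (Submodule.subset_span ⟨X', hX', X, hX, β, δ, P, α, hP, rfl⟩)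
    have h2 := hD X hX X' hX' _ h1 a ha
    rw [opm_comp, opm_comp, opm_comp, projects_iff.1 hP, prj_of_mem hε' ha] at h2
    exact h2
  · rw [map_zero, map_zero]
  · intro a b _ _ ha hb; rw [map_add, map_add, ha, hb, add_zero]
  · intro c a _ ha; rw [map_smul, map_smul, ha, smul_zero]

/-- **Existence of the projector.** -/
theorem exists_proj (hε : ε = 1 ∨ ε = -1) (hC : ∀ X ∈ 𝒮, R.CPlus X)
    (hD : ∀ X ∈ 𝒮, ∀ X' ∈ 𝒮', HomNum hU R ε X X') (hg : Generated R 𝒮 ε M)
    (hd : Detected R 𝒮' ε M) : ∃ e ∈ tj R 𝒮' 𝒮 ε M, Projects R ε e := by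
  have hc := R_charZero R
  have hε' : ε * ε = 1 := by rcases hε with rfl | rfl <;> norm_num
  obtain ⟨n, f, hf⟩ := exists_coord' R hU M
  set A := tj R 𝒮' 𝒮 ε M with hA
  let T : (M ⟶ M) →ₗ[ℚ] ℚ :=
    { toFun := fun a => ctr hU a
      map_add' := fun a b => ctr_add hU a b
      map_smul' := fun q a => ctr_smul hU q a }
  let B : A →ₗ[ℚ] A →ₗ[ℚ] ℚ :=
    LinearMap.mk₂ ℚ (fun a b => T ((a : M ⟶ M) ≫ (b : M ⟶ M)))
      (fun a a' b => by rw [Submodule.coe_add, Preadditive.add_comp, map_add])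
      (fun q a b => by rw [Submodule.coe_smul, Linear.smul_comp, map_smul])
      (fun a b b' => by rw [Submodule.coe_add, Preadditive.comp_add, map_add])
      (fun q a b => by rw [Submodule.coe_smul, Linear.comp_smul, map_smul])
  have hB : ∀ a b : A, B a b = ctr hU ((a : M ⟶ M) ≫ (b : M ⟶ M)) := fun a b => rfl
  have hvan : ∀ a : A, B a = 0 → ∀ t ∈ A, ctr hU ((a : M ⟶ M) ≫ t) = 0 := by
    intro a ha t ht
    exact LinearMap.congr_fun ha ⟨t, ht⟩
  obtain ⟨e, he⟩ := exists_repr B (fun a b => by rw [hB, hB, ctr_comm R hU])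
    (f ∘ₗ A.subtype) (fun a ha => by
      ext b
      exact hf _ ha _) (T ∘ₗ A.subtype) (fun a ha => by
      have h1 := hvan a ha
      refine ctr_eq_zero (R := R) hU fun x => ?_
      have h2 : opm R (a : M ⟶ M) x ∈ gp R 𝒮 ε M := tj_map hε' a.2 x
      exact hd _ (gp_le (tj_map hε' a.2 _)) fun X' hX' β => orth hU hε hC hD h1 h2 hX' β)
  refine ⟨e, e.2, projects_iff.2 fun x => ?_⟩
  have key : ∀ y ∈ gp R 𝒮 ε M, opm R (e : M ⟶ M) y = y := by
    intro y hy
    rw [← sub_eq_zero]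
    refine hd _ (Submodule.sub_mem _ (gp_le (tj_map hε' e.2 _)) (gp_le hy)) fun X' hX' β => ?_
    have h3 := orth (x := (e : M ⟶ M) - 𝟙 M) hU hε hC hD (fun t ht => ?_) hy hX' β
    · rwa [opm_sub, opm_id] at h3
    · have h4 := he ⟨t, ht⟩
      rw [hB] at h4
      rw [Preadditive.sub_comp, Category.id_comp, ctr_sub, sub_eq_zero]
      exact h4
  rw [← tj_prj hε' e.2]
  exact key _ (generated_le hε' hg (prj_mem R hε' x))

/-- the converse -/
theorem generated_of_proj (hε : ε = 1 ∨ ε = -1) {e : M ⟶ M} (he : e ∈ through 𝒮' 𝒮 M)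
    (hp : Projects R ε e) : Generated R 𝒮 ε M ∧ Detected R 𝒮' ε M := by
  have hc := R_charZero R
  have hε' : ε * ε = 1 := by rcases hε with rfl | rfl <;> norm_num
  have h1 : ∀ y ∈ signPart R ε M, opm R e y = y := fun y hy => by
    rw [projects_iff.1 hp, prj_of_mem hε' hy]
  constructor
  · intro y hy
    rw [← h1 y hy]
    refine Submodule.span_induction (p := fun t _ => opm R t y ∈ Submodule.span K
      {y | ∃ X ∈ 𝒮, ∃ (α : X ⟶ M) (x : R.H.obj X), y = opm R α x}) ?_ ?_ ?_ ?_ he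
    · rintro _ ⟨X', hX', X, hX, β, δ, α, rfl⟩
      rw [opm_comp, opm_comp]
      exact Submodule.subset_span ⟨X, hX, α, _, rfl⟩
    · rw [opm_zero]; exact Submodule.zero_mem _
    · intro a b _ _ ha hb; rw [opm_add]; exact Submodule.add_mem _ ha hb
    · intro c a _ ha; rw [opm_smul]; exact Submodule.smul_mem _ _ ha
  · intro y hy hz
    rw [← h1 y hy]
    refine Submodule.span_induction (p := fun t _ => opm R t y = 0) ?_ ?_ ?_ ?_ he
    · rintro _ ⟨X', hX', X, hX, β, δ, α, rfl⟩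
      rw [opm_comp, opm_comp, hz X' hX' β, map_zero, map_zero]
    · rw [opm_zero]
    · intro a b _ _ ha hb; rw [opm_add, ha, hb, add_zero]
    · intro c a _ ha; rw [opm_smul, ha, smul_zero]

end Main

end Run7.h43.NC
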